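import Pool.Agent.J4.H82.Graph.Main

/-!
# The graph measure on `Homeo([0,1]^d)` is not lower semicontinuous for `d ≥ 4`

The homeomorphism `f` is a shear `(u, v, w) ↦ (u + χ(u) Φ(v), v, w)`, `u, v ∈ [0,1]²`, where
`Φ : ℝ² → ℝ²` is a uniform limit of maps `Φ_K` whose graphs have arbitrarily small two-dimensional
measure above their small support, although `Φ` maps a set of measure zero onto a fixed square.
-/

set_option autoImplicit false

open MeasureTheory

open Pool.Agent.J4.H82.Graph in
theorem Pool.Agent.Results.MP_ccb05f_an.NotLowerSemicontinuous.result :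
    ∀ d : ℕ, 4 ≤ d → ∃ (c : ℝ) (f : Cube d ≃ₜ Cube d),
      ENNReal.ofReal c < Measure.hausdorffMeasure (d : ℝ) (graph f) ∧
      ∀ ε : ℝ, 0 < ε → ∃ g : Cube d ≃ₜ Cube d, (∀ x, dist (f x) (g x) < ε) ∧
        Measure.hausdorffMeasure (d : ℝ) (graph g) ≤ ENNReal.ofReal c :=
  fun _ hd => main hd
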